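import Pool.Agent.H8.JS.Targets

/-!
# The other steps of the Turing machine of a machine with counters
-/

set_option autoImplicit false

namespace Pool.Agent.H51.JS

open Pool.Agent.H8.JS

theorem isy_inj (M : CW) {a b : Option Bool} (h : isy M a = isy M b) : a = b := by
  cases a <;> cases b <;> simp_all [isy]

theorem csy_inj (M : CW) {a b : Bool} (h : csy M a = csy M b) : a = b := by
  cases a <;> cases b <;> simp_all [csy]

theorem wsy_inj (M : CW) {a b : Option M.A} (h : wsy M a = wsy M b) : a = b := by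
  cases a <;> cases b <;> simp_all [wsy]

section
variable (M : CW) (e : Prop)

/-- the input tape -/
def j0 : Fin ((tm M e).k + 1) := (0 : Fin (M.k + 1 + 1))

/-- the counters -/
def j1 (j : Fin M.k) : Fin ((tm M e).k + 1) := (Fin.succ (Fin.castSucc j) : Fin (M.k + 1 + 1))

/-- the work tape -/
def j2 : Fin ((tm M e).k + 1) := (Fin.succ (Fin.last M.k) : Fin (M.k + 1 + 1))

/-- a property of all tapes -/
theorem all_tapes {p : Fin ((tm M e).k + 1) → Prop} (h0 : p (j0 M e))
    (h1 : ∀ j : Fin M.k, p (j1 M e j)) (h2 : p (j2 M e)) : ∀ j, p j := by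
  intro j
  revert j
  show ∀ j : Fin (M.k + 1 + 1), p j
  exact fun j => Fin.cases h0 (fun j => Fin.lastCases (motive := fun j => p (Fin.succ j)) h2 h1 j) j

/-- tuples -/
def tup {α : Type} (a : α) (f : Fin M.k → α) (b : α) : Fin ((tm M e).k + 1) → α :=
  (Fin.cons a (Fin.snoc f b) : Fin (M.k + 1 + 1) → α)

variable {α : Type} (a : α) (f : Fin M.k → α) (b : α)

theorem tup_0 : tup M e a f b (j0 M e) = a := rfl

theorem tup_1 (j : Fin M.k) : tup M e a f b (j1 M e j) = f j :=
  Fin.snoc_castSucc (α := fun _ => α) b f j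

theorem tup_2 : tup M e a f b (j2 M e) = b :=
  Fin.snoc_last (α := fun _ => α) b f

variable (x : List Bool) (c : CC M)

theorem hd_eq : (emb M e x c).hd = tup M e c.i c.n c.h := rfl

theorem tp_eq : (emb M e x c).tp = tup M e (fun p => isy M x[p]?)
    (fun _ : Fin M.k => fun p => csy M (decide (p = 0))) (fun p => wsy M (c.w p)) := rfl

theorem hd_0 : (emb M e x c).hd (j0 M e) = c.i := rfl

theorem hd_1 (j : Fin M.k) : (emb M e x c).hd (j1 M e j) = c.n j := by
  rw [hd_eq, tup_1]

theorem hd_2 : (emb M e x c).hd (j2 M e) = c.h := by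
  rw [hd_eq, tup_2]

theorem tp_0 (p : ℕ) : (emb M e x c).tp (j0 M e) p = isy M x[p]? := rfl

theorem tp_1 (j : Fin M.k) (p : ℕ) :
    (emb M e x c).tp (j1 M e j) p = csy M (decide (p = 0)) := by
  have h := congrFun (congrFun (tp_eq M e x c) (j1 M e j)) p
  refine h.trans ?_
  rw [tup_1]

theorem tp_2 (p : ℕ) : (emb M e x c).tp (j2 M e) p = wsy M (c.w p) := by
  have h := congrFun (congrFun (tp_eq M e x c) (j2 M e)) p
  refine h.trans ?_
  rw [tup_2]

end

theorem pf_t2 : J_T2 := by
  intro M e x c d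
  constructor
  · rintro ⟨a', dd, ⟨q₁, i, z, w, adv, dn, w', m, hδ, hq, ha, ha', hd⟩, hh, ht⟩
    have ha2 : (fun j => (emb M e x c).tp j ((emb M e x c).hd j)) =
      tup M e (isy M i) (fun j => csy M (z j)) (wsy M w) := ha
    have ha3 : a' = tup M e (isy M i) (fun j => csy M (z j)) (wsy M w') := ha'
    have hd2 : dd = tup M e (if adv then .R else .S) dn m := hd
    clear ha ha' hd
    have e0 : x[c.i]? = i := isy_inj M (congrFun ha2 (j0 M e))
    have e1 : (fun j => decide (c.n j = 0)) = z := by
      funext j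
      have h1 := congrFun ha2 (j1 M e j)
      rw [tup_1] at h1
      have h2 : (emb M e x c).tp (j1 M e j) ((emb M e x c).hd (j1 M e j)) = csy M (z j) := h1
      rw [hd_1, tp_1] at h2
      exact csy_inj M h2
    have e2 : c.w c.h = w := by
      have h1 := congrFun ha2 (j2 M e)
      rw [tup_2] at h1
      have h2 : (emb M e x c).tp (j2 M e) ((emb M e x c).hd (j2 M e)) = wsy M w := h1
      rw [hd_2, tp_2] at h2
      exact wsy_inj M h2
    subst e0 e1 e2
    refine ⟨⟨q₁, if adv then c.i + 1 else c.i, fun j => (dn j).go (c.n j), m.go c.h,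
      fun p => if p = c.h then w' else c.w p⟩, ⟨adv, dn, w', m, hδ, rfl, fun _ => rfl, rfl,
      fun _ => rfl⟩, ?_⟩
    apply Cfg.ext
    · exact hq
    · funext j
      revert j
      refine all_tapes M e ?_ (fun j => ?_) ?_
      · rw [hh, hd2, hd_0, hd_0, tup_0]
        cases adv <;> rfl
      · rw [hh, hd2, hd_1, hd_1, tup_1]
      · rw [hh, hd2, hd_2, hd_2, tup_2]
    · funext j p
      revert j
      refine all_tapes M e ?_ (fun j => ?_) ?_
      · rw [ht, ha3, hd_0, tp_0, tp_0, tup_0]
        split_ifs with h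
        · rw [h]
        · rfl
      · rw [ht, ha3, hd_1, tp_1, tp_1, tup_1]
        split_ifs with h
        · rw [h]
        · rfl
      · rw [ht, ha3, hd_2, tp_2, tp_2, tup_2]
        show (if p = c.h then wsy M w' else wsy M (c.w p)) = wsy M (if p = c.h then w' else c.w p)
        by_cases h : p = c.h
        · rw [if_pos h, if_pos h]
        · rw [if_neg h, if_neg h]
  · rintro ⟨c', ⟨adv, dn, w', m, hδ, h1, h2, h3, h4⟩, rfl⟩
    refine ⟨tup M e (isy M x[c.i]?) (fun j => csy M (decide (c.n j = 0))) (wsy M w'),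
      tup M e (if adv then .R else .S) dn m, ⟨c'.q, x[c.i]?, _, c.w c.h, adv, dn, w', m,
      hδ, rfl, ?_, rfl, rfl⟩, ?_, ?_⟩
    · show (fun j => (emb M e x c).tp j ((emb M e x c).hd j)) =
        tup M e (isy M x[c.i]?) (fun j => csy M (decide (c.n j = 0))) (wsy M (c.w c.h))
      funext j
      revert j
      refine all_tapes M e ?_ (fun j => ?_) ?_
      · rw [tup_0, hd_0, tp_0]
      · rw [tup_1, hd_1, tp_1]
      · rw [tup_2, hd_2, tp_2]
    · refine all_tapes M e ?_ (fun j => ?_) ?_
      · rw [hd_0, hd_0, tup_0, h1]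
        cases adv <;> rfl
      · rw [hd_1, hd_1, tup_1, h2]
      · rw [hd_2, hd_2, tup_2, h3]
    · intro j p
      revert j
      refine all_tapes M e ?_ (fun j => ?_) ?_
      · rw [hd_0, tp_0, tp_0, tup_0]
        split_ifs with h
        · rw [h]
        · rfl
      · rw [hd_1, tp_1, tp_1, tup_1]
        split_ifs with h
        · rw [h]
        · rfl
      · rw [hd_2, tp_2, tp_2, tup_2, h4]
        split_ifs with h
        · rfl
        · rfl

end Pool.Agent.H51.JS
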